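import Mathlib

/-! Project CC, package ORD: fundamental domains for groups of permutations of coordinates. -/

set_option autoImplicit false

open Finset Filter Topology

namespace Pool.Agent.Helper83.CC

variable {N : ℕ}

/-- layer cake -/
theorem layer (R : Fin N → Fin N → Prop) (T : Finset (Finset (Fin N)))
    (hT : ∀ t, t ∈ T ↔ ∀ k i, R k i → i ∈ t → k ∈ t) (n : ℕ) :
    ∀ x : Fin N → ℝ, (∀ i, 0 ≤ x i) → (∀ k i, R k i → x i ≤ x k) →
      (univ.filter fun i => 0 < x i).card ≤ n →
      ∃ c : Finset (Fin N) → ℝ, (∀ t, 0 ≤ c t) ∧ ∀ i, x i = ∑ t ∈ T, if i ∈ t then c t else 0 := by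
  induction n with
  | zero =>
    intro x hx _ hn
    refine ⟨fun _ => 0, fun _ => le_rfl, fun i => ?_⟩
    have h : i ∉ univ.filter fun i => 0 < x i := by
      rw [Finset.card_eq_zero.1 (Nat.le_zero.1 hn)]
      exact Finset.notMem_empty i
    rw [Finset.mem_filter, not_and, not_lt] at h
    rw [le_antisymm (h (mem_univ i)) (hx i)]
    simp
  | succ n ih =>
    intro x hx hR hn
    set s : Finset (Fin N) := univ.filter fun i => 0 < x i with hs
    have hsm : ∀ i, i ∈ s ↔ 0 < x i := fun i => by rw [hs, Finset.mem_filter]; simp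
    rcases s.eq_empty_or_nonempty with h0 | hne
    · refine ih x hx hR ?_
      have h0' : (univ.filter fun i => 0 < x i) = ∅ := h0
      rw [h0']
      simp
    obtain ⟨i0, hi0, hmin⟩ := s.exists_min_image x hne
    set m := x i0 with hm
    have hm0 : 0 < m := (hsm i0).1 hi0
    have hsT : s ∈ T := by
      rw [hT]
      intro k i hki hi
      rw [hsm] at hi ⊢
      exact lt_of_lt_of_le hi (hR k i hki)
    set y : Fin N → ℝ := fun i => if i ∈ s then x i - m else 0 with hy
    have hy0 : ∀ i, 0 ≤ y i := by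
      intro i
      simp only [hy]
      split_ifs with h
      · have := hmin i h
        linarith
      · exact le_rfl
    have hyR : ∀ k i, R k i → y i ≤ y k := by
      intro k i hki
      by_cases hi : i ∈ s
      · have hk : k ∈ s := (hT s).1 hsT k i hki hi
        simp only [hy, if_pos hi, if_pos hk]
        have := hR k i hki
        linarith
      · simp only [hy, if_neg hi]
        exact hy0 k
    have hcard : (univ.filter fun i => 0 < y i).card ≤ n := by
      have h1 : (univ.filter fun i => 0 < y i) ⊆ s.erase i0 := by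
        intro i hi
        have h2 : 0 < y i := by simpa using hi
        simp only [hy] at h2
        split_ifs at h2 with h
        · refine Finset.mem_erase.2 ⟨?_, h⟩
          rintro rfl
          rw [← hm] at h2
          linarith
        · exact absurd h2 (lt_irrefl _)
      have h3 := Finset.card_le_card h1
      rw [Finset.card_erase_of_mem hi0] at h3
      omega
    obtain ⟨c, hc0, hc⟩ := ih y hy0 hyR hcard
    refine ⟨fun t => c t + if t = s then m else 0, fun t => ?_, fun i => ?_⟩
    · have := hc0 t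
      show 0 ≤ c t + if t = s then m else 0
      split_ifs <;> linarith
    · have e1 : ∀ t, (if i ∈ t then (c t + if t = s then m else 0) else 0) =
          (if i ∈ t then c t else 0) + (if t = s then (if i ∈ s then m else 0) else 0) := by
        intro t
        by_cases h1 : t = s
        · rw [h1]
          by_cases h2 : i ∈ s <;> simp [h2]
        · by_cases h2 : i ∈ t <;> simp [h1, h2]
      rw [Finset.sum_congr rfl fun t _ => e1 t, Finset.sum_add_distrib, ← hc i,
        Finset.sum_ite_eq' T s, if_pos hsT]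
      simp only [hy]
      by_cases h : i ∈ s
      · simp [h]
      · simp only [h, if_false]
        rw [hsm, not_lt] at h
        linarith [hx i]

/-- interior points satisfy the inequalities strictly -/
theorem strict {D : Set (Fin N → ℝ)} {k i : Fin N} (hki : k ≠ i) (hD : ∀ y ∈ D, y i ≤ y k)
    {x : Fin N → ℝ} (hx : x ∈ interior D) : x i < x k := by
  have hcont : Continuous fun t : ℝ => Function.update x k (x k - t) :=
    continuous_const.update k (continuous_const.sub continuous_id)
  have h0 : Function.update x k (x k - 0) ∈ interior D := by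
    rw [sub_zero, Function.update_eq_self]
    exact hx
  have h1 : ∀ᶠ t in 𝓝 (0 : ℝ), Function.update x k (x k - t) ∈ interior D :=
    hcont.continuousAt.eventually (isOpen_interior.mem_nhds h0)
  have h2 : ∀ᶠ t in 𝓝[>] (0 : ℝ), Function.update x k (x k - t) ∈ interior D :=
    h1.filter_mono nhdsWithin_le_nhds
  obtain ⟨t, ht, ht0⟩ := (h2.and self_mem_nhdsWithin).exists
  have h3 := hD _ (interior_subset ht)
  rw [Function.update_self, Function.update_of_ne hki.symm] at h3
  have h4 : 0 < t := ht0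
  linarith

theorem ord {N : ℕ} (Γ : Subgroup (Equiv.Perm (Fin N))) :
    ∃ T : Finset (Finset (Fin N)), ∃ D : Set (Fin N → ℝ),
      (∀ x, x ∈ D ↔ ∃ c : Finset (Fin N) → ℝ, (∀ t, 0 ≤ c t) ∧
        ∀ i, x i = ∑ t ∈ T, if i ∈ t then c t else 0) ∧
      (∀ x : Fin N → ℝ, (∀ i, 0 ≤ x i) → ∃ σ ∈ Γ, (fun i => x (σ i)) ∈ D) ∧
      ∀ σ ∈ Γ, σ ≠ 1 → ∀ x, x ∈ interior D → (fun i => x (σ i)) ∉ interior D := by
  let R : Fin N → Fin N → Prop := fun k i => ∃ g ∈ Γ, (∀ j < k, g j = j) ∧ g k = i
  obtain ⟨T, hT⟩ : ∃ T : Finset (Finset (Fin N)), ∀ t, t ∈ T ↔ ∀ k i, R k i → i ∈ t → k ∈ t := by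
    classical
    exact ⟨univ.filter fun t => ∀ k i, R k i → i ∈ t → k ∈ t, fun t => by simp⟩
  let D : Set (Fin N → ℝ) := {x | (∀ i, 0 ≤ x i) ∧ ∀ k i, R k i → x i ≤ x k}
  refine ⟨T, D, fun x => ⟨?_, ?_⟩, ?_, ?_⟩
  · rintro ⟨hx, hR⟩
    exact layer R T hT _ x hx hR le_rfl
  · rintro ⟨c, hc, hx⟩
    refine ⟨fun i => ?_, fun k i hki => ?_⟩
    · rw [hx]
      refine Finset.sum_nonneg fun t _ => ?_
      split_ifs
      · exact hc t
      · exact le_rfl
    · rw [hx, hx]
      refine Finset.sum_le_sum fun t ht => ?_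
      by_cases h1 : i ∈ t
      · rw [if_pos h1, if_pos ((hT t).1 ht k i hki h1)]
      · rw [if_neg h1]
        split_ifs
        · exact hc t
        · exact le_rfl
  · intro x hx
    obtain ⟨⟨σ, hσ⟩, hmax⟩ := Finite.exists_max (fun σ : Γ => toLex fun i : Fin N => x (σ.1 i))
    refine ⟨σ, hσ, fun i => hx _, ?_⟩
    rintro k i ⟨g, hg, hfix, rfl⟩
    by_contra hcon
    push Not at hcon
    have h1 := hmax ⟨σ * g, Γ.mul_mem hσ hg⟩
    apply not_lt_of_ge h1
    refine ⟨k, fun j hj => ?_, ?_⟩
    · show x (σ j) = x ((σ * g) j)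
      rw [Equiv.Perm.mul_apply, hfix j hj]
    · show x (σ k) < x ((σ * g) k)
      rw [Equiv.Perm.mul_apply]
      exact hcon
  · intro σ hσ h1 x hx hx'
    have hex : ∃ k, σ k ≠ k := by
      by_contra hcon
      push Not at hcon
      exact h1 (Equiv.ext hcon)
    -- the least moved point
    obtain ⟨k, hk, hmin⟩ : ∃ k, σ k ≠ k ∧ ∀ j < k, σ j = j := by
      classical
      obtain ⟨k, hk, hmin⟩ := (univ.filter fun k => σ k ≠ k).exists_min_image id
        (by obtain ⟨k, hk⟩ := hex; exact ⟨k, by simpa using hk⟩)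
      refine ⟨k, by simpa using hk, fun j hj => ?_⟩
      by_contra hcon
      have h2 := hmin j (by simpa using hcon)
      exact absurd hj (not_lt_of_ge h2)
    have hR1 : R k (σ k) := ⟨σ, hσ, hmin, rfl⟩
    have hmin' : ∀ j < k, σ⁻¹ j = j := fun j hj => by
      rw [Equiv.Perm.inv_eq_iff_eq, hmin j hj]
    have hR2 : R k (σ⁻¹ k) := ⟨σ⁻¹, Γ.inv_mem hσ, hmin', rfl⟩
    have hk' : k ≠ σ⁻¹ k := by
      intro h
      apply hk
      have h2 := congrArg σ h
      exact h2.trans (σ.apply_symm_apply k)
    have h3 := strict (D := D) (Ne.symm hk) (fun y hy => hy.2 k (σ k) hR1) hx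
    have h4 := strict (D := D) hk' (fun y hy => hy.2 k (σ⁻¹ k) hR2) hx'
    have h5 : x (σ (σ⁻¹ k)) = x k := congrArg x (σ.apply_symm_apply k)
    have h6 : x (σ (σ⁻¹ k)) < x (σ k) := h4
    rw [h5] at h6
    exact lt_asymm h3 h6

end Pool.Agent.Helper83.CC
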