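import Pool.Agent.Helper9.CC.Stm
import Pool.Agent.Helper83.CC.Ord0

/-! Project CC, package ORD. -/

set_option autoImplicit false

namespace Pool.Agent.Helper83.CC

theorem s_ord : Pool.Agent.Helper9.CC.S_ORD := @ord

end Pool.Agent.Helper83.CC
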